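import Pool.Agent.NH9.PX.Stm

/-!
# PX-DER: the derivative
-/

set_option autoImplicit false

namespace Pool.Agent.NH9.PX

open Finset Polynomial

namespace DER

theorem prod_lt_one (A : Finset ℤ) (t : ℤ → ℝ) (hA : A.Nonempty) (ht : ∀ a ∈ A, -1 < t a ∧ t a ≠ 0)
    (hs : ∑ a ∈ A, t a = 0) : ∏ a ∈ A, (1 + t a) < 1 := by
  have h1 : ∏ a ∈ A, (1 + t a) < ∏ a ∈ A, Real.exp (t a) := by
    refine Finset.prod_lt_prod_of_nonempty (fun a ha => ?_) (fun a ha => ?_) hA
    · linarith [(ht a ha).1]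
    · rw [add_comm]
      exact Real.add_one_lt_exp (ht a ha).2
  rwa [← Real.exp_sum, hs, Real.exp_zero] at h1

theorem eval_der (A : Finset ℤ) (b : ℤ) (hb : ∀ a ∈ A, b ≠ a) :
    (((derivative (∏ a ∈ A, (X - C a))).eval b : ℤ) : ℝ) =
      (∏ a ∈ A, ((b : ℝ) - a)) * ∑ a ∈ A, ((b : ℝ) - a)⁻¹ := by
  classical
  rw [derivative_prod_finset, eval_finset_sum, Finset.mul_sum, Int.cast_sum]
  refine Finset.sum_congr rfl fun a ha => ?_
  rw [derivative_X_sub_C, mul_one, eval_prod, Int.cast_prod]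
  have h0 : (b : ℝ) - a ≠ 0 := by
    rw [sub_ne_zero]
    exact_mod_cast hb a ha
  rw [← Finset.mul_prod_erase A _ ha, mul_comm ((b : ℝ) - a), mul_assoc, mul_inv_cancel₀ h0,
    mul_one]
  refine Finset.prod_congr rfl fun j _ => ?_
  simp

theorem cast_PR (A : Finset ℤ) (b : ℤ) : ((PR A b : ℤ) : ℝ) = ∏ a ∈ A, ((b : ℝ) - a) := by
  unfold PR
  push_cast
  rfl

theorem PR_ne (A : Finset ℤ) (b : ℤ) (hb : ∀ a ∈ A, b ≠ a) : ∏ a ∈ A, ((b : ℝ) - a) ≠ 0 :=
  Finset.prod_ne_zero_iff.2 fun a ha => by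
    rw [sub_ne_zero]
    exact_mod_cast hb a ha

/-- the main step: `c` is the point, `c + d` the other point, `d = 2` or `-2` -/
theorem main (A : Finset ℤ) (c d : ℤ) (hA : A.Nonempty) (hc : ∀ a ∈ A, c ≠ a)
    (_ : ∀ a ∈ A, c + d ≠ a) (hpos : ∀ a ∈ A, -1 < (d : ℝ) * ((c : ℝ) - a)⁻¹) (hd0 : d ≠ 0)
    (hPR : PR A c = PR A (c + d)) :
    (derivative (∏ a ∈ A, (X - C a))).eval c ≠ 0 := by
  intro h0
  have h1 := eval_der A c hc
  rw [h0, Int.cast_zero] at h1
  have h2 := (mul_eq_zero.1 h1.symm).resolve_left (PR_ne A c hc)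
  have h3 : ∑ a ∈ A, (d : ℝ) * ((c : ℝ) - a)⁻¹ = 0 := by
    rw [← Finset.mul_sum, h2, mul_zero]
  have h4 := prod_lt_one A (fun a => (d : ℝ) * ((c : ℝ) - a)⁻¹) hA (fun a ha => ⟨hpos a ha, by
    refine mul_ne_zero (by exact_mod_cast hd0) (inv_ne_zero ?_)
    rw [sub_ne_zero]
    exact_mod_cast hc a ha⟩) h3
  have h5 : ∏ a ∈ A, (1 + (d : ℝ) * ((c : ℝ) - a)⁻¹) = 1 := by
    have h6 : ∏ a ∈ A, (1 + (d : ℝ) * ((c : ℝ) - a)⁻¹) =
        (∏ a ∈ A, (((c + d : ℤ) : ℝ) - a)) / ∏ a ∈ A, ((c : ℝ) - a) := by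
      rw [← Finset.prod_div_distrib]
      refine Finset.prod_congr rfl fun a ha => ?_
      have h7 : (c : ℝ) - a ≠ 0 := by
        rw [sub_ne_zero]
        exact_mod_cast hc a ha
      push_cast
      field_simp
      ring
    rw [h6, ← cast_PR, ← cast_PR, ← hPR, div_self]
    rw [cast_PR]
    exact PR_ne A c hc
  rw [h5] at h4
  exact lt_irrefl _ h4

end DER

theorem t_DER : S_DER := by
  intro A b hA hab hPR
  have hb : ∀ a ∈ A, b ≠ a := fun a ha => by
    rcases hab a ha with h | h <;> omega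
  have hb2 : ∀ a ∈ A, b + 2 ≠ a := fun a ha => by
    rcases hab a ha with h | h <;> omega
  refine ⟨DER.main A b 2 hA hb hb2 (fun a ha => ?_) (by norm_num) hPR,
    DER.main A (b + 2) (-2) hA hb2 (fun a ha => ?_) (fun a ha => ?_) (by norm_num) ?_⟩
  · rcases hab a ha with h | h
    · have h1 : (0 : ℝ) < (b : ℝ) - a := by
        rw [sub_pos]
        exact_mod_cast h
      have h2 : 0 < ((2 : ℤ) : ℝ) * ((b : ℝ) - a)⁻¹ := by positivity
      linarith
    · have h1 : (b : ℝ) + 2 < a := by exact_mod_cast h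
      have h2 : (b : ℝ) - a < 0 := by linarith
      rw [← div_eq_mul_inv, lt_div_iff_of_neg h2]
      push_cast
      linarith
  · have h1 := hb a ha
    have h2 : b + 2 + -2 = b := by ring
    rw [h2]
    exact h1
  · rcases hab a ha with h | h
    · have h1 : (a : ℝ) < b := by exact_mod_cast h
      have h2 : 0 < ((b + 2 : ℤ) : ℝ) - a := by
        push_cast
        linarith
      rw [← div_eq_mul_inv, lt_div_iff₀ h2]
      push_cast
      linarith
    · have h1 : (b : ℝ) + 2 < a := by exact_mod_cast h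
      have h2 : ((b + 2 : ℤ) : ℝ) - a < 0 := by
        push_cast
        linarith
      rw [← div_eq_mul_inv, lt_div_iff_of_neg h2]
      push_cast
      linarith
  · rw [show b + 2 + -2 = b by ring]
    exact hPR.symm

end Pool.Agent.NH9.PX
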