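import Pool.Agent.NH9.PX.Stm

/-!
# PX-CMP (helper17): compatibility of the congruences
-/

set_option autoImplicit false

namespace Pool.Agent.NH9.PX.CMP

open Finset Pool.Agent.NH9.PX

theorem xi_erase (s : ℕ → ℕ) (e : Finset ℕ) (D : ℕ) (h : D ∈ e) :
    xi s e = xi s (e.erase D) + (s D : ℤ) := by
  unfold xi
  rw [← Finset.sum_erase_add e _ h]
  ring

theorem eta_erase (s : ℕ → ℕ) (e : Finset ℕ) (D : ℕ) (h : D ∈ e) :
    eta s e = eta s (e.erase D) + xx D * (s D : ℤ) := by
  unfold eta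
  rw [← Finset.sum_erase_add e _ h]

theorem erase_sub (e : Finset ℕ) (D : ℕ) (h : e ⊆ range (D + 1)) : e.erase D ⊆ range D := by
  intro x hx
  have h1 := Finset.ne_of_mem_erase hx
  have h2 := Finset.mem_range.1 (h (Finset.mem_of_mem_erase hx))
  exact Finset.mem_range.2 (by omega)

theorem sub_of_notMem (e : Finset ℕ) (D : ℕ) (h : e ⊆ range (D + 1)) (hD : D ∉ e) :
    e ⊆ range D := by
  intro x hx
  have h1 : x ≠ D := fun h => hD (h ▸ hx)
  have h2 := Finset.mem_range.1 (h hx)
  exact Finset.mem_range.2 (by omega)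

theorem sum_bd (s : ℕ → ℕ) (e : Finset ℕ) (D : ℕ) (h : e ⊆ range D) :
    0 ≤ ∑ i ∈ e, (s i : ℤ) ∧ ∑ i ∈ e, (s i : ℤ) ≤ ((∑ j ∈ range D, s j : ℕ) : ℤ) := by
  refine ⟨Finset.sum_nonneg fun i _ => by positivity, ?_⟩
  rw [Nat.cast_sum]
  exact Finset.sum_le_sum_of_subset_of_nonneg h fun i _ _ => by positivity

theorem le_of_dvd (d : ℕ) (z B : ℤ) (h0 : z ≠ 0) (h : (d : ℤ) ∣ z) (hB : |z| ≤ B) :
    (d : ℤ) ≤ B := by
  have h1 : (d : ℤ) ≤ |z| := Int.le_of_dvd (abs_pos.2 h0) ((dvd_abs _ _).2 h)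
  exact h1.trans hB

theorem eta_one (s : ℕ → ℕ) (e : Finset ℕ) (h : e ⊆ range 1) : eta s e = 0 := by
  unfold eta
  refine Finset.sum_eq_zero fun i hi => ?_
  have h1 := Finset.mem_range.1 (h hi)
  have h2 : i = 0 := by omega
  subst h2
  simp [xx]

/-- exactly one of the two sets contains `D` -/
theorem one_case (hgap : S_GAP) (s : ℕ → ℕ) (hs : Sq s) (D : ℕ) (hD : 1 ≤ D)
    (ih : ∀ e f : Finset ℕ, e ⊆ range D → f ⊆ range D → ∀ d : ℕ, d % 2 = 1 →
      (d : ℤ) ∣ xi s e → (d : ℤ) ∣ xi s f → (d : ℤ) ∣ eta s e - eta s f)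
    (e f : Finset ℕ) (he : e ⊆ range (D + 1)) (hf : f ⊆ range D) (hDe : D ∈ e) (d : ℕ)
    (hd : d % 2 = 1) (h1 : (d : ℤ) ∣ xi s e) (h2 : (d : ℤ) ∣ xi s f) :
    (d : ℤ) ∣ eta s e - eta s f := by
  have hodd := (hgap s hs).1
  have hb := sum_bd s f D hf
  have hne : xi s f ≠ 0 := by
    intro h
    have := hodd f
    rw [h] at this
    norm_num at this
  have hle : (d : ℤ) ≤ 15 + ((∑ j ∈ range D, s j : ℕ) : ℤ) := by
    refine le_of_dvd d _ _ hne h2 ?_
    rw [abs_le]
    unfold xi
    constructor <;> linarith [hb.1, hb.2]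
  have hle' : d ≤ 15 + ∑ j ∈ range D, s j := by exact_mod_cast hle
  have hsD : (d : ℤ) ∣ (s D : ℤ) := by exact_mod_cast hs.hd D hD d hd hle'
  have h3 : (d : ℤ) ∣ xi s (e.erase D) := by
    have h4 := xi_erase s e D hDe
    rw [h4] at h1
    exact (Int.dvd_add_left hsD).1 h1
  have h5 := ih (e.erase D) f (erase_sub e D he) hf d hd h3 h2
  rw [eta_erase s e D hDe]
  have h6 : eta s (e.erase D) + xx D * (s D : ℤ) - eta s f
      = (eta s (e.erase D) - eta s f) + xx D * (s D : ℤ) := by ring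
  rw [h6]
  exact dvd_add h5 (hsD.mul_left _)

theorem main (hgap : S_GAP) (s : ℕ → ℕ) (hs : Sq s) (D : ℕ) :
    ∀ e f : Finset ℕ, e ⊆ range D → f ⊆ range D → ∀ d : ℕ, d % 2 = 1 →
      (d : ℤ) ∣ xi s e → (d : ℤ) ∣ xi s f → (d : ℤ) ∣ eta s e - eta s f := by
  induction D with
  | zero =>
    intro e f he hf d _ _ _
    have h1 : e = ∅ := by simpa using he
    have h2 : f = ∅ := by simpa using hf
    rw [h1, h2]
    simp
  | succ D ih =>
    intro e f he hf d hd h1 h2
    rcases Nat.eq_zero_or_pos D with h0 | hD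
    · subst h0
      rw [eta_one s e he, eta_one s f hf]
      simp
    by_cases hDe : D ∈ e
    · by_cases hDf : D ∈ f
      · by_cases hef : e.erase D = f.erase D
        · have h3 : e = f := by
            rw [← Finset.insert_erase hDe, ← Finset.insert_erase hDf, hef]
          rw [h3]
          simp
        · have hb1 := sum_bd s (e.erase D) D (erase_sub e D he)
          have hb2 := sum_bd s (f.erase D) D (erase_sub f D hf)
          have h3 : (d : ℤ) ∣ xi s (e.erase D) - xi s (f.erase D) := by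
            have h4 := dvd_sub h1 h2
            rw [xi_erase s e D hDe, xi_erase s f D hDf] at h4
            have h5 : xi s (e.erase D) + (s D : ℤ) - (xi s (f.erase D) + (s D : ℤ))
                = xi s (e.erase D) - xi s (f.erase D) := by ring
            rwa [h5] at h4
          have hne : xi s (e.erase D) - xi s (f.erase D) ≠ 0 := by
            intro h
            exact hef ((hgap s hs).2.2.2.2.2 _ _ (sub_eq_zero.1 h))
          have hle : (d : ℤ) ≤ 15 + ((∑ j ∈ range D, s j : ℕ) : ℤ) := by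
            refine le_of_dvd d _ _ hne h3 ?_
            rw [abs_le]
            unfold xi
            constructor <;> linarith [hb1.1, hb1.2, hb2.1, hb2.2]
          have hle' : d ≤ 15 + ∑ j ∈ range D, s j := by exact_mod_cast hle
          have hsD : (d : ℤ) ∣ (s D : ℤ) := by exact_mod_cast hs.hd D hD d hd hle'
          have h6 : (d : ℤ) ∣ xi s (e.erase D) := by
            have h4 := xi_erase s e D hDe
            rw [h4] at h1
            exact (Int.dvd_add_left hsD).1 h1
          have h7 : (d : ℤ) ∣ xi s (f.erase D) := by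
            have h4 := xi_erase s f D hDf
            rw [h4] at h2
            exact (Int.dvd_add_left hsD).1 h2
          have h8 := ih _ _ (erase_sub e D he) (erase_sub f D hf) d hd h6 h7
          rw [eta_erase s e D hDe, eta_erase s f D hDf]
          have h9 : eta s (e.erase D) + xx D * (s D : ℤ) - (eta s (f.erase D) + xx D * (s D : ℤ))
              = eta s (e.erase D) - eta s (f.erase D) := by ring
          rwa [h9]
      · exact one_case hgap s hs D hD ih e f he (sub_of_notMem f D hf hDf) hDe d hd h1 h2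
    · by_cases hDf : D ∈ f
      · have h3 := one_case hgap s hs D hD ih f e hf (sub_of_notMem e D he hDe) hDf d hd h2 h1
        exact (dvd_sub_comm).1 h3
      · exact ih e f (sub_of_notMem e D he hDe) (sub_of_notMem f D hf hDf) d hd h1 h2

end Pool.Agent.NH9.PX.CMP

namespace Pool.Agent.NH9.PX

open Finset CMP

theorem t_CMP (h : S_GAP) : S_CMP := by
  intro s hs e f
  have hodd := (h s hs).1 e
  obtain ⟨D, hD⟩ : ∃ D, e ∪ f ⊆ range D := by
    refine ⟨(e ∪ f).sup id + 1, fun x hx => ?_⟩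
    have h1 : id x ≤ (e ∪ f).sup id := Finset.le_sup hx
    exact Finset.mem_range.2 (Nat.lt_succ_of_le h1)
  refine main h s hs D e f (Finset.union_subset_left hD) (Finset.union_subset_right hD) _ ?_
    (Int.gcd_dvd_left _ _) (Int.gcd_dvd_right _ _)
  by_contra hc
  have h2 : 2 ∣ Int.gcd (xi s e) (xi s f) := by omega
  have h3 : (2 : ℤ) ∣ xi s e := (Int.natCast_dvd_natCast.2 h2).trans (Int.gcd_dvd_left _ _)
  omega

end Pool.Agent.NH9.PX
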