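import Pool.Agent.NH9.PX.Stm

/-!
# PX-DAT: the data for the theorem on class groups
-/

set_option autoImplicit false

namespace Pool.Agent.NH9.PX

open Finset Polynomial

namespace DAT

theorem xx_def (i : ℕ) : xx i = 16 * ((i / 2 : ℕ) : ℤ) + 2 * ((i % 2 : ℕ) : ℤ) := rfl

theorem bb_def (i : ℕ) : bb i = 16 * ((i / 2 : ℕ) : ℤ) + 2 * ((i % 2 : ℕ) : ℤ) - 16 := rfl

theorem bb_inj {i j : ℕ} (h : bb i = bb j) : i = j := by
  rw [bb_def, bb_def] at h
  omega

theorem bb_even {j : ℕ} (h : j % 2 = 0) : bb (j + 1) = bb j + 2 ∧ bb j % 16 = 0 := by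
  rw [bb_def, bb_def]
  constructor <;> omega

theorem prod_enum {M : Type} [CommMonoid M] (A : Finset ℤ) (f : ℤ → M) :
    ∏ i : Fin A.card, f ((A.equivFin.symm i : A) : ℤ) = ∏ a ∈ A, f a := by
  rw [Equiv.prod_comp A.equivFin.symm (fun x : A => f (x : ℤ)), Finset.prod_coe_sort A f]

end DAT

open DAT in
theorem t_DAT (hq : S_SEQ) (hs : S_SET) (hr : S_REF) (hd : S_DER) : S_DAT := by
  intro k N
  obtain ⟨s, hsq⟩ := hq
  obtain ⟨D, hD⟩ : ∃ D, D = 4 * (k + 1) := ⟨_, rfl⟩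
  obtain ⟨R, C, hBR, heven, hmod, ⟨a₀, ha₀, hBa₀⟩, hC⟩ :=
    hs s hsq D ((N : ℤ) + 16 * D + 100) (by omega)
  obtain ⟨A, c, hRA, hcard, hc, hval, hAmod⟩ := hr R C D (by omega) (by omega) heven hmod hC
  have ha₀A : a₀ ∈ A := hRA ha₀
  have hpA : Pool.Agent.W289.CG.pA (fun i : Fin A.card => ((A.equivFin.symm i : A) : ℤ)) =
      ∏ a ∈ A, (X - Polynomial.C a) := by
    unfold Pool.Agent.W289.CG.pA
    exact prod_enum A (fun a => X - Polynomial.C a)
  have heval : ∀ x : ℤ, (∏ a ∈ A, (X - Polynomial.C a)).eval x = PR A x := by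
    intro x
    unfold PR
    rw [Polynomial.eval_prod]
    refine Finset.prod_congr rfl fun a _ => ?_
    simp
  have hder : ∀ j : ℕ, j % 2 = 0 → j + 1 < D + 2 →
      (derivative (∏ a ∈ A, (X - Polynomial.C a))).eval (bb j) ≠ 0 ∧
      (derivative (∏ a ∈ A, (X - Polynomial.C a))).eval (bb j + 2) ≠ 0 := by
    intro j hj hjD
    obtain ⟨h1, h2⟩ := bb_even hj
    refine hd A (bb j) ⟨a₀, ha₀A⟩ ?_ ?_
    · intro a ha
      obtain ⟨h3, h4, h5⟩ := hAmod a ha
      by_contra h6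
      push Not at h6
      omega
    · rw [← h1, hval j (by omega), hval (j + 1) hjD]
  refine ⟨A.card, by omega, ⟨{
    a := fun i => ((A.equivFin.symm i : A) : ℤ)
    b := fun j => bb j
    c := c
    ha := ?_
    hb := ?_
    hc := hc
    hab := ?_
    hder := ?_
    hlt := ?_ }⟩⟩
  · intro i j hij
    exact A.equivFin.symm.injective (Subtype.ext hij)
  · intro i j hij
    exact Fin.ext (bb_inj hij)
  · intro j
    rw [hpA, heval]
    have := j.2
    exact hval j (by omega)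
  · intro j
    rw [hpA]
    have hj := j.2
    rcases Nat.mod_two_eq_zero_or_one (j : ℕ) with h | h
    · exact (hder j h (by omega)).1
    · have h1 : ((j : ℕ) - 1) % 2 = 0 := by omega
      have h2 := (hder ((j : ℕ) - 1) h1 (by omega)).2
      rw [← (bb_even h1).1, Nat.sub_add_cancel (by omega)] at h2
      exact h2
  · intro j
    refine ⟨A.equivFin ⟨a₀, ha₀A⟩, ?_⟩
    have hj := j.2
    show bb j < ((A.equivFin.symm (A.equivFin ⟨a₀, ha₀A⟩) : A) : ℤ)
    rw [Equiv.symm_apply_apply, bb_def]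
    show _ < a₀
    omega

end Pool.Agent.NH9.PX
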