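import Pool.Agent.NH9.PX.Stm

/-!
# The order and the residues of the numbers `ξ` (GAP)
-/

set_option autoImplicit false

namespace Pool.Agent.NH9.PX

open Finset

namespace GAP

variable {s : ℕ → ℕ}

theorem sz0 (h : Sq s) (i : ℕ) : s i % 8 = 0 := by
  rcases Nat.eq_zero_or_pos i with hi | hi
  · rw [hi, h.h0]
  · have := h.h8 i hi
    omega

theorem xi_insert (e : Finset ℕ) (i : ℕ) (hi : i ∉ e) : xi s (insert i e) = xi s e + s i := by
  unfold xi
  rw [sum_insert hi]
  ring

theorem xi_mod8 (h : Sq s) (e : Finset ℕ) : xi s e % 8 = 1 := by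
  induction e using Finset.induction_on with
  | empty => unfold xi; simp
  | insert i e hi ih =>
    rw [xi_insert e i hi]
    have := sz0 h i
    omega

theorem xi_ge (e : Finset ℕ) (i : ℕ) (hi : i ∈ e) : -15 + (s i : ℤ) ≤ xi s e := by
  unfold xi
  have := single_le_sum (f := fun j => (s j : ℤ)) (fun j _ => Int.natCast_nonneg (s j)) hi
  linarith

theorem xi_le (e : Finset ℕ) (D : ℕ) (he : e ⊆ range D) :
    xi s e ≤ -15 + ((∑ j ∈ range D, s j : ℕ) : ℤ) := by
  unfold xi
  rw [Nat.cast_sum]
  have := sum_le_sum_of_subset_of_nonneg (f := fun j => (s j : ℤ)) he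
    (fun j _ _ => Int.natCast_nonneg (s j))
  linarith

theorem big (h : Sq s) (D : ℕ) (e f : Finset ℕ) (he : e ⊆ range D) (hf : D ∈ f) (hf0 : 0 ∉ f) :
    xi s e + 17 ≤ xi s f := by
  have hD : 1 ≤ D := by
    rcases Nat.eq_zero_or_pos D with h1 | h1
    · rw [h1] at hf; exact absurd hf hf0
    · exact h1
  have h1 := h.hg D hD
  have h2 := xi_le (s := s) e D he
  have h3 := xi_ge (s := s) f D hf
  omega

theorem sub_of {e : Finset ℕ} {D : ℕ} (he : e ⊆ range (D + 1)) (h : D ∉ e) : e ⊆ range D := by
  intro i hi
  have h1 := mem_range.1 (he hi)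
  have h2 : i ≠ D := fun h' => h (h' ▸ hi)
  exact mem_range.2 (by omega)

theorem gap (h : Sq s) (D : ℕ) : ∀ e f : Finset ℕ, e ⊆ range D → f ⊆ range D → 0 ∉ e → 0 ∉ f →
    e ≠ f → xi s e + 17 ≤ xi s f ∨ xi s f + 17 ≤ xi s e := by
  induction D with
  | zero =>
    intro e f he hf _ _ hne
    rw [range_zero, subset_empty] at he hf
    exact absurd (he.trans hf.symm) hne
  | succ D ih =>
    intro e f he hf h0e h0f hne
    by_cases hDe : D ∈ e
    · by_cases hDf : D ∈ f
      · have h1 : xi s e = xi s (e.erase D) + s D := by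
          rw [← xi_insert _ D (notMem_erase D e), insert_erase hDe]
        have h2 : xi s f = xi s (f.erase D) + s D := by
          rw [← xi_insert _ D (notMem_erase D f), insert_erase hDf]
        have h3 : e.erase D ≠ f.erase D := by
          intro h4
          apply hne
          rw [← insert_erase hDe, h4, insert_erase hDf]
        have h5 := ih (e.erase D) (f.erase D)
          (sub_of ((erase_subset D e).trans he) (notMem_erase D e))
          (sub_of ((erase_subset D f).trans hf) (notMem_erase D f))
          (fun h' => h0e (mem_of_mem_erase h')) (fun h' => h0f (mem_of_mem_erase h')) h3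
        omega
      · exact Or.inr (big h D f e (sub_of hf hDf) hDe h0e)
    · by_cases hDf : D ∈ f
      · exact Or.inl (big h D e f (sub_of he hDe) hDf h0f)
      · exact ih e f (sub_of he hDe) (sub_of hf hDf) h0e h0f hne

theorem gap' (h : Sq s) (e f : Finset ℕ) (h0e : 0 ∉ e) (h0f : 0 ∉ f) (hne : e ≠ f) :
    xi s e + 17 ≤ xi s f ∨ xi s f + 17 ≤ xi s e := by
  obtain ⟨D, hD⟩ := (e ∪ f).exists_nat_subset_range
  exact gap h D e f (subset_union_left.trans hD) (subset_union_right.trans hD) h0e h0f hne

theorem ins (h : Sq s) (e : Finset ℕ) (he : 0 ∉ e) :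
    xi s (insert 0 e) = xi s e + 16 ∧ eta s (insert 0 e) = eta s e := by
  constructor
  · rw [xi_insert e 0 he, h.h0]
    rfl
  · unfold eta
    rw [sum_insert he]
    have : xx 0 = 0 := by unfold xx; simp
    rw [this]
    ring

theorem res (h : Sq s) (e : Finset ℕ) (he : 0 ∉ e) :
    xi s e % 16 = if e.card % 2 = 0 then 1 else 9 := by
  induction e using Finset.induction_on with
  | empty => unfold xi; simp
  | insert i e hi ih =>
    have h0 : 0 ∉ e := fun h' => he (mem_insert_of_mem h')
    have hi1 : 1 ≤ i := by
      rcases Nat.eq_zero_or_pos i with h1 | h1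
      · exact absurd (h1 ▸ mem_insert_self i e) he
      · exact h1
    have h1 := ih h0
    have h2 := h.h8 i hi1
    rw [xi_insert e i hi, card_insert_of_notMem hi]
    split_ifs at h1 ⊢ <;> omega

end GAP

open GAP in
theorem t_GAP : S_GAP := by
  intro s h
  refine ⟨fun e => ?_, gap' h, fun e h0 hne => ?_, ins h, res h, fun e f hef => ?_⟩
  · have := xi_mod8 h e
    omega
  · obtain ⟨i, hi⟩ := nonempty_iff_ne_empty.2 hne
    have hi1 : 1 ≤ i := by
      rcases Nat.eq_zero_or_pos i with h1 | h1
      · exact absurd (h1 ▸ hi) h0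
      · exact h1
    have h1 := h.hg i hi1
    have h2 := xi_ge (s := s) e i hi
    omega
  · by_cases h0e : 0 ∈ e
    · have h1 := (ins h (e.erase 0) (notMem_erase 0 e)).1
      rw [insert_erase h0e] at h1
      by_cases h0f : 0 ∈ f
      · have h2 := (ins h (f.erase 0) (notMem_erase 0 f)).1
        rw [insert_erase h0f] at h2
        by_contra hne
        have h3 : e.erase 0 ≠ f.erase 0 := by
          intro h4
          apply hne
          rw [← insert_erase h0e, h4, insert_erase h0f]
        have h5 := gap' h _ _ (notMem_erase 0 e) (notMem_erase 0 f) h3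
        omega
      · exfalso
        by_cases h3 : e.erase 0 = f
        · rw [h3] at h1
          omega
        · have h5 := gap' h _ _ (notMem_erase 0 e) h0f h3
          omega
    · by_cases h0f : 0 ∈ f
      · exfalso
        have h2 := (ins h (f.erase 0) (notMem_erase 0 f)).1
        rw [insert_erase h0f] at h2
        by_cases h3 : e = f.erase 0
        · rw [← h3] at h2
          omega
        · have h5 := gap' h _ _ h0e (notMem_erase 0 f) h3
          omega
      · by_contra hne
        have h5 := gap' h _ _ h0e h0f hne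
        omega

end Pool.Agent.NH9.PX
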