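import Pool.Agent.NH9.PX.Stm

/-!
# PX-ORD: the order of the numbers `u e`
-/

set_option autoImplicit false

namespace Pool.Agent.NH9.PX

open Finset

namespace ORD

theorem xx_even (i : ℕ) : ∃ k : ℤ, 0 ≤ k ∧ xx i = 2 * k := by
  refine ⟨8 * ((i / 2 : ℕ) : ℤ) + ((i % 2 : ℕ) : ℤ), by positivity, ?_⟩
  unfold xx
  ring

theorem eta_nonneg (s : ℕ → ℕ) (e : Finset ℕ) : 0 ≤ eta s e := by
  unfold eta
  refine Finset.sum_nonneg fun i _ => ?_
  obtain ⟨k, hk, h⟩ := xx_even i
  rw [h]
  positivity

theorem eta_mod (s : ℕ → ℕ) (hs : Sq s) (e : Finset ℕ) : (16 : ℤ) ∣ eta s e := by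
  unfold eta
  refine Finset.dvd_sum fun i _ => ?_
  obtain ⟨k, hk, h⟩ := xx_even i
  rw [h]
  have h8 : (8 : ℤ) ∣ (s i : ℤ) := by
    rcases Nat.eq_zero_or_pos i with hi | hi
    · rw [hi, hs.h0]
      norm_num
    · have := hs.h8 i hi
      omega
  obtain ⟨c, hc⟩ := h8
  rw [hc]
  exact ⟨k * c, by ring⟩

/-- residues -/
theorem res {u x t : ℤ} (h : u * x = t) (ht : t % 16 = 3) (c : Prop) [Decidable c]
    (hx : x % 16 = if c then 1 else 9) : u % 16 = if c then 3 else 11 := by
  have h1 : (u % 16) * (x % 16) % 16 = 3 := by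
    rw [← Int.mul_emod, h, ht]
  rw [hx] at h1
  have h2 : 0 ≤ u % 16 := Int.emod_nonneg _ (by norm_num)
  have h3 : u % 16 < 16 := Int.emod_lt_of_pos _ (by norm_num)
  split_ifs at h1 ⊢
  · omega
  · omega

end ORD

open ORD in
theorem t_ORD (h : S_GAP) : S_ORD := by
  intro s hs D B hD
  obtain ⟨g1, g2, g3, g4, g5, -⟩ := h s hs
  set P : Finset (Finset ℕ) := (range D).powerset with hP
  set S1 : ℤ := ∑ e ∈ P, eta s e with hS1
  set S2 : ℤ := ∑ e ∈ P, ∑ f ∈ P, eta s f * |xi s e + 16| with hS2
  have hS1e : ∀ e ∈ P, eta s e ≤ S1 := fun e he =>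
    Finset.single_le_sum (f := fun e => eta s e) (fun e _ => eta_nonneg s e) he
  have hS10 : 0 ≤ S1 := Finset.sum_nonneg fun e _ => eta_nonneg s e
  have hS2e : ∀ e ∈ P, ∀ f ∈ P, eta s f * (xi s e + 16) ≤ S2 := by
    intro e he f hf
    have h1 : eta s f * |xi s e + 16| ≤ ∑ f ∈ P, eta s f * |xi s e + 16| :=
      Finset.single_le_sum (f := fun f => eta s f * |xi s e + 16|)
        (fun f _ => mul_nonneg (eta_nonneg s f) (abs_nonneg _)) hf
    have h2 : ∑ f ∈ P, eta s f * |xi s e + 16| ≤ S2 :=
      Finset.single_le_sum (f := fun e => ∑ f ∈ P, eta s f * |xi s e + 16|)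
        (fun e _ => Finset.sum_nonneg fun f _ => mul_nonneg (eta_nonneg s f) (abs_nonneg _)) he
    have h3 : eta s f * (xi s e + 16) ≤ eta s f * |xi s e + 16| :=
      mul_le_mul_of_nonneg_left (le_abs_self _) (eta_nonneg s f)
    linarith
  have hS20 : 0 ≤ S2 := Finset.sum_nonneg fun e _ => Finset.sum_nonneg fun f _ =>
    mul_nonneg (eta_nonneg s f) (abs_nonneg _)
  refine ⟨|B| + 1000 + S1 + S2, ?_⟩
  intro T u hT hT16 hu
  have hB := le_abs_self B
  have hB0 := abs_nonneg B
  have h0D : ({0} : Finset ℕ) ⊆ range D := by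
    rw [Finset.singleton_subset_iff, Finset.mem_range]
    omega
  have hins : ∀ e ⊆ range D, insert 0 e ⊆ range D := by
    intro e he
    rw [Finset.insert_subset_iff, Finset.mem_range]
    exact ⟨by omega, he⟩
  have hu2 : ∀ e ⊆ range D, 0 ∉ e → u (insert 0 e) * (xi s e + 16) = T + eta s e := by
    intro e he h0
    have h1 := hu _ (hins e he)
    rwa [(g4 e h0).1, (g4 e h0).2] at h1
  have hxe : xi s ∅ = -15 := by simp [xi]
  have hee : eta s ∅ = 0 := by simp [eta]
  have hx0 : xi s {0} = 1 := by simp [xi, hs.h0]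
  have he0 : eta s {0} = 0 := by simp [eta, xx]
  refine ⟨⟨?_, ?_, by linarith⟩, ?_, ?_, ?_⟩
  · have h1 := hu _ h0D
    rw [hx0, he0] at h1
    linarith
  · have h1 := hu ∅ (Finset.empty_subset _)
    rw [hxe, hee] at h1
    linarith
  · intro e he h0 hne
    have hx := g3 e h0 hne
    have h1 := hu e he
    have h2 := hu2 e he h0
    have h3 := eta_nonneg s e
    have h4 := hS1e e (Finset.mem_powerset.2 he)
    have hTp : 0 < T + eta s e := by linarith
    have h5 : 0 < u (insert 0 e) := by
      by_contra hc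
      rw [not_lt] at hc
      nlinarith
    have h6 : 0 < u e := by
      by_contra hc
      rw [not_lt] at hc
      nlinarith
    refine ⟨h5, ?_, ?_⟩
    · by_contra hc
      rw [not_lt] at hc
      nlinarith
    · nlinarith
  · intro e he f hf h0e h0f hne hnf hef
    have hxe' := g3 e h0e hne
    have hxf' := g3 f h0f hnf
    have key : ∀ e f : Finset ℕ, e ⊆ range D → f ⊆ range D → 0 ∉ e → 0 ∉ f → 100 ≤ xi s e → 100 ≤ xi s f →
        xi s e + 17 ≤ xi s f → u f ≤ u (insert 0 e) := by
      intro e f he hf h0e h0f hxe' hxf' hgap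
      have h1 := hu f hf
      have h2 := hu2 e he h0e
      have h3 := hS2e e (Finset.mem_powerset.2 he) f (Finset.mem_powerset.2 hf)
      have h4 := eta_nonneg s e
      have h5 := eta_nonneg s f
      have h6 : (T + eta s f) * (xi s e + 16) ≤ (T + eta s e) * xi s f := by
        have h7 : eta s f * (xi s e + 16) ≤ T := by linarith
        have h8 : 0 ≤ eta s e * xi s f := by positivity
        have h9 : T * 1 ≤ T * (xi s f - xi s e - 16) := by
          apply mul_le_mul_of_nonneg_left
          · linarith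
          · linarith
        nlinarith
      rw [← h1, ← h2] at h6
      have h10 : u f * (xi s f * (xi s e + 16)) ≤ u (insert 0 e) * (xi s f * (xi s e + 16)) := by
        nlinarith
      exact le_of_mul_le_mul_right h10 (by positivity)
    rcases g2 e f h0e h0f hef with hg | hg
    · left
      exact key e f he hf h0e h0f hxe' hxf' hg
    · right
      exact key f e hf he h0f h0e hxf' hxe' hg
  · intro e he h0
    have h1 := hu e he
    have h2 := hu2 e he h0
    have hm := eta_mod s hs e
    have hTm : (T + eta s e) % 16 = 3 := by omega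
    have hx := g5 e h0
    have hx2 : (xi s e + 16) % 16 = if e.card % 2 = 0 then 1 else 9 := by
      rw [← hx]
      omega
    have r1 := res h1 hTm _ hx
    have r2 := res h2 hTm _ hx2
    refine ⟨r1, by rw [r1, r2], ?_⟩
    have h3 : (u e - u (insert 0 e)) % 16 = 0 := by
      rw [← r2] at r1
      omega
    obtain ⟨k, hk⟩ := Int.dvd_of_emod_eq_zero h3
    have h4 : k * xi s e = u (insert 0 e) := by
      have h5 : (u e - u (insert 0 e)) * xi s e = 16 * u (insert 0 e) := by linarith
      rw [hk] at h5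
      linarith
    have h6 : u (insert 0 e) % 2 = 1 := by
      split_ifs at r2 <;> omega
    have h7 : k % 2 = 1 := by
      rcases Int.emod_two_eq_zero_or_one k with hk2 | hk2
      · exfalso
        obtain ⟨c, hc⟩ := Int.dvd_of_emod_eq_zero hk2
        rw [hc] at h4
        have : (2 : ℤ) ∣ u (insert 0 e) := ⟨c * xi s e, by rw [← h4]; ring⟩
        omega
      · exact hk2
    omega

end Pool.Agent.NH9.PX
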