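import Pool.Agent.NH9.PX.Stm

set_option autoImplicit false

namespace Pool.Agent.NH9.PX

open Finset Polynomial

namespace REF

theorem bb_add (D i : ℕ) (hD : D % 4 = 0) (hi : i < D + 2) :
    bb i + bb (D + 1 - i) = 8 * (D : ℤ) - 30 := by
  unfold bb xx
  omega

theorem bb_two (i : ℕ) : bb (i + 2) = xx i := by
  unfold bb xx
  omega

theorem PR_image (R : Finset ℤ) (q x : ℤ) (h : R.card % 2 = 0) :
    PR (R.image (fun a => q - a)) x = PR R (q - x) := by
  unfold PR
  rw [Finset.prod_image (fun a _ b _ hab => by simpa using hab)]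
  have : ∀ a ∈ R, x - (q - a) = (-1) * (q - x - a) := fun a _ => by ring
  rw [Finset.prod_congr rfl this, Finset.prod_mul_distrib, Finset.prod_const]
  rw [(Nat.even_iff.mpr h).neg_one_pow, one_mul]

theorem disj (R : Finset ℤ) (D : ℕ) (hD : D % 4 = 0)
    (hR : ∀ a ∈ R, a % 16 = 3 ∨ a % 16 = 11) :
    Disjoint R (R.image (fun a => 8 * (D : ℤ) - 30 - a)) := by
  rw [Finset.disjoint_left]
  intro a ha hb
  rw [Finset.mem_image] at hb
  obtain ⟨b, hb, rfl⟩ := hb
  have h1 := hR _ ha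
  have h2 := hR _ hb
  omega

theorem PR_A (R : Finset ℤ) (D : ℕ) (hD : D % 4 = 0) (h : R.card % 2 = 0)
    (hR : ∀ a ∈ R, a % 16 = 3 ∨ a % 16 = 11) (x : ℤ) :
    PR (R ∪ R.image (fun a => 8 * (D : ℤ) - 30 - a)) x
      = PR R x * PR R (8 * (D : ℤ) - 30 - x) := by
  rw [← PR_image R (8 * (D : ℤ) - 30) x h]
  unfold PR
  exact Finset.prod_union (disj R D hD hR)

theorem chain (R : Finset ℤ) (C : ℚ) (D : ℕ)
    (hC : ∀ i < D, (PR R (xx i) : ℚ) = C * PR R (xx i - 16)) (r : ℕ) :
    ∀ j : ℕ, 2 * j + r < D + 2 → (PR R (bb (2 * j + r)) : ℚ) = C ^ j * PR R (bb r) := by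
  intro j
  induction j with
  | zero => intro _; simp
  | succ j ih =>
    intro hj
    have h1 : 2 * j + r < D := by omega
    have h2 := hC _ h1
    have h3 : 2 * (j + 1) + r = (2 * j + r) + 2 := by ring
    rw [h3, bb_two, h2]
    have h4 : xx (2 * j + r) - 16 = bb (2 * j + r) := rfl
    rw [h4, ih (by omega), pow_succ]
    ring

theorem val (R : Finset ℤ) (C : ℚ) (D : ℕ) (hD : D % 4 = 0)
    (hC : ∀ i < D, (PR R (xx i) : ℚ) = C * PR R (xx i - 16)) (i : ℕ) (hi : i < D + 2) :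
    (PR R (bb i) : ℚ) * PR R (bb (D + 1 - i)) = C ^ (D / 2) * (PR R (bb 0) * PR R (bb 1)) := by
  have hc := chain R C D hC
  rcases Nat.mod_two_eq_zero_or_one i with h | h
  · have e1 : i = 2 * (i / 2) + 0 := by omega
    have e2 : D + 1 - i = 2 * (D / 2 - i / 2) + 1 := by omega
    have e3 : D / 2 = i / 2 + (D / 2 - i / 2) := by omega
    have h1 := hc 0 (i / 2) (by omega)
    have h2 := hc 1 (D / 2 - i / 2) (by omega)
    rw [← e1] at h1
    rw [← e2] at h2
    rw [h1, h2]
    have e4 : C ^ (D / 2) = C ^ (i / 2) * C ^ (D / 2 - i / 2) := by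
      rw [← pow_add]
      exact congrArg _ e3
    rw [e4]
    ring
  · have e1 : i = 2 * (i / 2) + 1 := by omega
    have e2 : D + 1 - i = 2 * (D / 2 - i / 2) + 0 := by omega
    have e3 : D / 2 = i / 2 + (D / 2 - i / 2) := by omega
    have h1 := hc 1 (i / 2) (by omega)
    have h2 := hc 0 (D / 2 - i / 2) (by omega)
    rw [← e1] at h1
    rw [← e2] at h2
    rw [h1, h2]
    have e4 : C ^ (D / 2) = C ^ (i / 2) * C ^ (D / 2 - i / 2) := by
      rw [← pow_add]
      exact congrArg _ e3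
    rw [e4]
    ring

theorem pos01 (R : Finset ℤ) (hR : ∀ a ∈ R, a % 16 = 3 ∨ a % 16 = 11) :
    0 < PR R (bb 0) * PR R (bb 1) := by
  have e0 : bb 0 = -16 := by simp [bb, xx]
  have e1 : bb 1 = -14 := by simp [bb, xx]
  rw [e0, e1]
  unfold PR
  rw [← Finset.prod_mul_distrib]
  refine Finset.prod_pos fun a ha => ?_
  have h := hR a ha
  rcases le_or_gt a (-17) with h1 | h1
  · exact mul_pos (by linarith) (by linarith)
  · have h2 : -13 ≤ a := by omega
    exact mul_pos_of_neg_of_neg (by linarith) (by linarith)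

theorem C_ne (R : Finset ℤ) (C : ℚ) (D : ℕ) (hD : 4 ≤ D)
    (hR : ∀ a ∈ R, a % 16 = 3 ∨ a % 16 = 11)
    (hC : ∀ i < D, (PR R (xx i) : ℚ) = C * PR R (xx i - 16)) : C ≠ 0 := by
  intro h
  have h1 := hC 0 (by omega)
  rw [h, zero_mul] at h1
  have h2 : PR R (xx 0) = 0 := by exact_mod_cast h1
  unfold PR at h2
  rw [Finset.prod_eq_zero_iff] at h2
  obtain ⟨a, ha, h3⟩ := h2
  have h4 := hR a ha
  have e0 : xx 0 = 0 := by simp [xx]
  rw [e0] at h3
  omega

end REF

theorem t_REF : S_REF := by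
  intro R C D hD hD4 hR2 hR hC
  have hval : ∀ i < D + 2, (PR (R ∪ R.image (fun a => 8 * (D : ℤ) - 30 - a)) (bb i) : ℚ)
      = C ^ (D / 2) * (PR R (bb 0) * PR R (bb 1)) := by
    intro i hi
    rw [REF.PR_A R D hD hR2 hR, ← REF.val R C D hD hC i hi]
    have e : 8 * (D : ℤ) - 30 - bb i = bb (D + 1 - i) := by
      have := REF.bb_add D i hD hi
      linarith
    rw [e]
    push_cast
    ring
  refine ⟨R ∪ R.image (fun a => 8 * (D : ℤ) - 30 - a),
    PR (R ∪ R.image (fun a => 8 * (D : ℤ) - 30 - a)) (bb 0), Finset.subset_union_left, ?_, ?_, ?_, ?_⟩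
  · rw [Finset.card_union_of_disjoint (REF.disj R D hD hR),
      Finset.card_image_of_injective _ (fun a b hab => by simpa using hab)]
    ring
  · have h0 := hval 0 (by omega)
    have h1 : (0 : ℚ) < C ^ (D / 2) * (PR R (bb 0) * PR R (bb 1)) := by
      refine mul_pos ?_ ?_
      · have hev : Even (D / 2) := Nat.even_iff.mpr (by omega)
        exact hev.pow_pos (REF.C_ne R C D hD4 hR hC)
      · have := REF.pos01 R hR
        exact_mod_cast this
    rw [← h0] at h1
    exact_mod_cast h1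
  · intro i hi
    have h0 := hval 0 (by omega)
    have h1 := hval i hi
    rw [← h0] at h1
    exact_mod_cast h1
  · intro a ha
    rw [Finset.mem_union, Finset.mem_image] at ha
    rcases ha with ha | ⟨b, hb, rfl⟩
    · have := hR a ha
      omega
    · have := hR b hb
      omega

end Pool.Agent.NH9.PX
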