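import Pool.Agent.NH9.PX.Stm

/-!
# Project PX: existence of the sequence
-/

set_option autoImplicit false

namespace Pool.Agent.NH9.PX

open Finset

namespace SEQ

/-- the product of the odd numbers below `2 B` -/
def oddf (B : ℕ) : ℕ := ∏ i ∈ range B, (2 * i + 1)

theorem oddf_odd (B : ℕ) : oddf B % 2 = 1 := by
  unfold oddf
  induction B with
  | zero => rfl
  | succ B ih =>
    rw [prod_range_succ, Nat.mul_mod, ih]
    omega

theorem oddf_pos (B : ℕ) : 0 < oddf B := by
  have := oddf_odd B
  omega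

theorem dvd_oddf {B d : ℕ} (h1 : d % 2 = 1) (h2 : d < 2 * B) : d ∣ oddf B := by
  have h3 : 2 * (d / 2) + 1 = d := by omega
  have h4 : d / 2 ∈ range B := by
    rw [mem_range]
    omega
  have h5 := dvd_prod_of_mem (fun i : ℕ => 2 * i + 1) h4
  beta_reduce at h5
  rw [h3] at h5
  exact h5

theorem le_oddf {B : ℕ} (hB : 1 ≤ B) : B ≤ oddf B := by
  have h1 : (2 * B - 1) ∣ oddf B := dvd_oddf (by omega) (by omega)
  have h2 := Nat.le_of_dvd (oddf_pos B) h1
  omega

/-- the next element, after the sum `P` -/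
def st (i P : ℕ) : ℕ := if i = 0 then 16 else 8 * oddf (15 + P)

/-- the sums of the first elements -/
def S : ℕ → ℕ
  | 0 => 0
  | n + 1 => S n + st n (S n)

theorem sum_eq (n : ℕ) : ∑ j ∈ range n, st j (S j) = S n := by
  induction n with
  | zero => rfl
  | succ n ih => rw [sum_range_succ, ih, S]

end SEQ

open SEQ in
theorem t_SEQ : S_SEQ := by
  refine ⟨fun i => st i (S i), ?_, fun i hi => ?_, fun i hi d hd hd' => ?_, fun i hi => ?_⟩
  · rfl
  · have h := oddf_odd (15 + S i)
    show st i (S i) % 16 = 8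
    unfold st
    rw [if_neg (by omega)]
    omega
  · rw [sum_eq] at hd'
    show d ∣ st i (S i)
    unfold st
    rw [if_neg (by omega)]
    exact Dvd.dvd.mul_left (dvd_oddf hd (by omega)) 8
  · rw [sum_eq]
    show 8 * (15 + S i) ≤ st i (S i)
    unfold st
    rw [if_neg (by omega)]
    exact Nat.mul_le_mul_left 8 (le_oddf (by omega))

end Pool.Agent.NH9.PX
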