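import Pool.Agent.NH9.PX.Stm

/-! # PX-SET: the set `R` -/

set_option autoImplicit false

namespace Pool.Agent.NH9.PX

open Finset Polynomial

namespace SET

lemma mem_iv {lo hi a : ℤ} : a ∈ iv lo hi ↔ lo ≤ a ∧ a < hi ∧ (a - lo) % 16 = 0 := by
  unfold iv
  rw [mem_filter, mem_Ico, and_assoc]

lemma PR_union {A B : Finset ℤ} (h : Disjoint A B) (x : ℤ) : PR (A ∪ B) x = PR A x * PR B x := by
  unfold PR
  rw [prod_union h]

lemma PR_biUnion {S : Finset (Finset ℕ)} {I : Finset ℕ → Finset ℤ}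
    (h : ∀ e ∈ S, ∀ f ∈ S, e ≠ f → Disjoint (I e) (I f)) (x : ℤ) :
    PR (S.biUnion I) x = ∏ e ∈ S, PR (I e) x := by
  unfold PR
  exact prod_biUnion fun e he f hf hef => h e he f hf hef

lemma PR_ne {S : Finset ℤ} {x : ℤ} (h : x ∉ S) : PR S x ≠ 0 := by
  unfold PR
  rw [prod_ne_zero_iff]
  intro a ha h0
  apply h
  have : x = a := by linarith
  rw [this]
  exact ha

/-- the even sets without `0` -/
def QE (D : ℕ) : Finset (Finset ℕ) := (Ico 1 D).powerset.filter fun e => e.card % 2 = 0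

/-- the odd sets without `0` -/
def QO (D : ℕ) : Finset (Finset ℕ) := (Ico 1 D).powerset.filter fun e => e.card % 2 = 1

lemma range_eq {D : ℕ} (hD : 1 ≤ D) : range D = insert 0 (Ico 1 D) := by
  ext i
  simp only [mem_range, mem_insert, mem_Ico]
  omega

lemma prod_Ev {D : ℕ} (hD : 1 ≤ D) (f : Finset ℕ → ℤ) :
    ∏ e ∈ Ev D, f e = (∏ e ∈ QE D, f e) * ∏ e ∈ QO D, f (insert 0 e) := by
  unfold Ev QE QO
  rw [prod_filter, prod_filter, prod_filter, range_eq hD, prod_powerset_insert (by simp)]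
  congr 1
  refine prod_congr rfl fun e he => ?_
  have h0 : (0 : ℕ) ∉ e := fun h => by
    have := mem_powerset.1 he h
    simp at this
  rw [card_insert_of_notMem h0]
  have : (e.card + 1) % 2 = 0 ↔ e.card % 2 = 1 := by omega
  simp only [this]

lemma prod_Od {D : ℕ} (hD : 1 ≤ D) (f : Finset ℕ → ℤ) :
    ∏ e ∈ Od D, f e = (∏ e ∈ QO D, f e) * ∏ e ∈ QE D, f (insert 0 e) := by
  unfold Od QE QO
  rw [prod_filter, prod_filter, prod_filter, range_eq hD, prod_powerset_insert (by simp)]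
  congr 1
  refine prod_congr rfl fun e he => ?_
  have h0 : (0 : ℕ) ∉ e := fun h => by
    have := mem_powerset.1 he h
    simp at this
  rw [card_insert_of_notMem h0]
  have : (e.card + 1) % 2 = 1 ↔ e.card % 2 = 0 := by omega
  simp only [this]

lemma mem_Q {D : ℕ} {e : Finset ℕ} (h : e ∈ (Ico 1 D).powerset) :
    e ⊆ range D ∧ 0 ∉ e := by
  rw [mem_powerset] at h
  refine ⟨fun i hi => ?_, fun h0 => ?_⟩
  · have := mem_Ico.1 (h hi)
    exact mem_range.2 this.2
  · have := h h0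
    simp at this

lemma xx_mod (i : ℕ) : xx i % 16 = 0 ∨ xx i % 16 = 2 := by
  unfold xx
  omega

end SET

open SET in
theorem t_SET (hx : S_TEX) (hm : S_TOM) (hl : S_TEL) (ho : S_ORD) (hg : S_GAP) : S_SET := by
  classical
  intro s hs D B hD
  have hD1 : 1 ≤ D := by omega
  obtain ⟨B', hB'⟩ := ho s hs D B hD1
  obtain ⟨T, u, hT, hT16, hu⟩ := hx s hs D (max B' (240 * |B| + 100))
  have hT1 : B' ≤ T := (le_max_left _ _).trans hT
  have hT2 : 240 * |B| + 100 ≤ T := (le_max_right _ _).trans hT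
  obtain ⟨⟨ho1, ho2, ho3⟩, ho4, ho5, ho6⟩ := hB' T u hT1 hT16 hu
  obtain ⟨hg1, hg2, hg3, hg4, hg5, hg6⟩ := hg s hs
  have habs := abs_nonneg B
  set I : Finset ℕ → Finset ℤ := fun e => iv (u (insert 0 e)) (u e) with hI
  set J : Finset ℤ := iv (u ∅) T with hJ
  set EE : Finset (Finset ℕ) := (QE D).erase ∅ with hEE
  set EO : Finset (Finset ℕ) := QO D with hEO
  have hempty : (∅ : Finset ℕ) ∈ QE D := by
    unfold QE
    simp
  have hEEm : ∀ e ∈ EE, (e ⊆ range D ∧ 0 ∉ e) ∧ e ≠ ∅ ∧ e.card % 2 = 0 := by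
    intro e he
    rw [hEE, mem_erase] at he
    obtain ⟨h1, h2⟩ := he
    unfold QE at h2
    rw [mem_filter] at h2
    exact ⟨mem_Q h2.1, h1, h2.2⟩
  have hEOm : ∀ e ∈ EO, (e ⊆ range D ∧ 0 ∉ e) ∧ e ≠ ∅ ∧ e.card % 2 = 1 := by
    intro e he
    rw [hEO] at he
    unfold QO at he
    rw [mem_filter] at he
    refine ⟨mem_Q he.1, ?_, he.2⟩
    rintro rfl
    simp at he
  -- the intervals
  have hu0 : u ∅ % 16 = 3 := by
    have := (ho6 ∅ (empty_subset _) (notMem_empty _)).1
    simpa using this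
  have hmodE : ∀ e ∈ EE, ∀ a ∈ I e, a % 16 = 3 := by
    intro e he a ha
    obtain ⟨⟨h1, h2⟩, h3, h4⟩ := hEEm e he
    obtain ⟨h5, h6, h7⟩ := ho6 e h1 h2
    rw [if_pos h4] at h5
    have := (mem_iv.1 ha).2.2
    omega
  have hmodO : ∀ e ∈ EO, ∀ a ∈ I e, a % 16 = 11 := by
    intro e he a ha
    obtain ⟨⟨h1, h2⟩, h3, h4⟩ := hEOm e he
    obtain ⟨h5, h6, h7⟩ := ho6 e h1 h2
    rw [if_neg (by omega)] at h5
    have := (mem_iv.1 ha).2.2
    omega
  have hmodJ : ∀ a ∈ J, a % 16 = 3 := by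
    intro a ha
    have := (mem_iv.1 ha).2.2
    omega
  have hdis : ∀ e f, (e ⊆ range D ∧ 0 ∉ e) → e ≠ ∅ → (f ⊆ range D ∧ 0 ∉ f) → f ≠ ∅ → e ≠ f →
      Disjoint (I e) (I f) := by
    intro e f he he' hf hf' hef
    rw [disjoint_left]
    intro a ha hb
    have h1 := mem_iv.1 ha
    have h2 := mem_iv.1 hb
    rcases ho5 e he.1 f hf.1 he.2 hf.2 he' hf' hef with h | h
    · linarith [h1.1, h2.2.1]
    · linarith [h2.1, h1.2.1]
  have hdisE : ∀ e ∈ EE, ∀ f ∈ EE, e ≠ f → Disjoint (I e) (I f) := fun e he f hf hef =>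
    hdis e f (hEEm e he).1 (hEEm e he).2.1 (hEEm f hf).1 (hEEm f hf).2.1 hef
  have hdisO : ∀ e ∈ EO, ∀ f ∈ EO, e ≠ f → Disjoint (I e) (I f) := fun e he f hf hef =>
    hdis e f (hEOm e he).1 (hEOm e he).2.1 (hEOm f hf).1 (hEOm f hf).2.1 hef
  set U : Finset ℤ := EE.biUnion I with hU
  set V : Finset ℤ := EO.biUnion I with hV
  have hUJ : U ⊆ J := by
    intro a ha
    rw [hU, mem_biUnion] at ha
    obtain ⟨e, he, ha⟩ := ha
    obtain ⟨⟨h1, h2⟩, h3, h4⟩ := hEEm e he
    obtain ⟨h5, h6, h7⟩ := ho4 e h1 h2 h3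
    have h8 := hmodE e he a ha
    have h9 := mem_iv.1 ha
    rw [hJ, mem_iv]
    refine ⟨by linarith [h9.1], by linarith [h9.2.1], by omega⟩
  have hUpos : ∀ a ∈ U, 0 < a ∧ a < T - 16 := by
    intro a ha
    rw [hU, mem_biUnion] at ha
    obtain ⟨e, he, ha⟩ := ha
    obtain ⟨⟨h1, h2⟩, h3, h4⟩ := hEEm e he
    obtain ⟨h5, h6, h7⟩ := ho4 e h1 h2 h3
    have h9 := mem_iv.1 ha
    exact ⟨by linarith [h9.1], by linarith [h9.2.1]⟩
  have hVmod : ∀ a ∈ V, a % 16 = 11 := by
    intro a ha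
    rw [hV, mem_biUnion] at ha
    obtain ⟨e, he, ha⟩ := ha
    exact hmodO e he a ha
  have hJV : Disjoint (J \ U) V := by
    rw [disjoint_left]
    intro a ha hb
    have h1 := hmodJ a (mem_sdiff.1 ha).1
    have h2 := hVmod a hb
    omega
  set R : Finset ℤ := (J \ U) ∪ V with hR
  have hRmod : ∀ a ∈ R, a % 16 = 3 ∨ a % 16 = 11 := by
    intro a ha
    rw [hR, mem_union] at ha
    rcases ha with ha | ha
    · exact Or.inl (hmodJ a (mem_sdiff.1 ha).1)
    · exact Or.inr (hVmod a ha)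
  -- telescoping
  have hTEL := fun e (he : e ⊆ range D) (h0 : 0 ∉ e) (h1 : e ≠ ∅) =>
    hl (u (insert 0 e)) (u e) (ho4 e he h0 h1).2.1.le (by
      have := (ho6 e he h0).2.2
      omega)
  have hTELJ := hl (u ∅) T (by linarith) (by omega)
  -- parity
  have hcard : R.card % 2 = 0 := by
    have h1 : R.card = (J \ U).card + V.card := card_union_of_disjoint hJV
    have h2 : (J \ U).card + U.card = J.card := card_sdiff_add_card_eq_card hUJ
    have h3 : U.card = ∑ e ∈ EE, (I e).card := card_biUnion fun e he f hf hef => hdisE e he f hf hef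
    have h4 : V.card = ∑ e ∈ EO, (I e).card := card_biUnion fun e he f hf hef => hdisO e he f hf hef
    have h5 : ∀ e, (e ⊆ range D ∧ 0 ∉ e) → e ≠ ∅ → (I e).card % 2 = 1 := by
      intro e he h0
      have h6 := (hTEL e he.1 he.2 h0).2
      have h7 := (ho6 e he.1 he.2).2.2
      have h8 : ((I e).card : ℤ) % 2 = 1 := by
        have : 16 * ((I e).card : ℤ) = u e - u (insert 0 e) := h6
        omega
      omega
    have h9 : J.card % 2 = 1 := by
      have h10 := hTELJ.2
      have h11 := (ho6 ∅ (empty_subset _) (notMem_empty _)).2.2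
      have h12 : insert 0 (∅ : Finset ℕ) = {0} := rfl
      rw [h12, ho1] at h11
      have : 16 * (J.card : ℤ) = T - u ∅ := h10
      omega
    have h13 : (∑ e ∈ EE, (I e).card) % 2 = EE.card % 2 := by
      rw [sum_nat_mod, sum_congr rfl fun e he => h5 e (hEEm e he).1 (hEEm e he).2.1]
      simp
    have h14 : (∑ e ∈ EO, (I e).card) % 2 = EO.card % 2 := by
      rw [sum_nat_mod, sum_congr rfl fun e he => h5 e (hEOm e he).1 (hEOm e he).2.1]
      simp
    have h15 : EE.card + EO.card + 1 = 2 ^ (D - 1) := by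
      have h16 : EE.card + 1 = (QE D).card := by
        rw [hEE]
        exact card_erase_add_one hempty
      have h17 : (QE D).card + EO.card = 2 ^ (D - 1) := by
        have h18 : EO = (Ico 1 D).powerset.filter fun e => ¬ e.card % 2 = 0 := by
          rw [hEO]
          unfold QO
          refine filter_congr fun e _ => ?_
          omega
        rw [h18]
        unfold QE
        rw [card_filter_add_card_filter_not, card_powerset, Nat.card_Ico]
      omega
    have h19 : 2 ^ (D - 1) % 2 = 0 := by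
      obtain ⟨d, hd⟩ : ∃ d, D - 1 = d + 1 := ⟨D - 2, by omega⟩
      rw [hd, pow_succ]
      omega
    omega
  -- the identity
  set Cn : ℤ := ∏ e ∈ Od D, xi s e with hCn
  set Cd : ℤ := ∏ e ∈ Ev D, xi s e with hCd
  have hCd0 : Cd ≠ 0 := by
    rw [hCd, prod_ne_zero_iff]
    intro e _ h0
    have := hg1 e
    omega
  refine ⟨R, (Cn : ℚ) / Cd, ?_, hcard, hRmod, ⟨T - 16, ?_, ho3⟩, ?_⟩
  · -- the size
    have h1 : u ∅ * xi s ∅ = T + eta s ∅ := hu ∅ (empty_subset _)
    have h2 : xi s ∅ = -15 := by simp [xi]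
    have h3 : eta s ∅ = 0 := by simp [eta]
    rw [h2, h3] at h1
    have h4 := hl (u ∅) (u ∅ + 16 * |B|) (by linarith) (by omega)
    have h5 : iv (u ∅) (u ∅ + 16 * |B|) ⊆ R := by
      intro a ha
      have h6 := mem_iv.1 ha
      rw [hR, mem_union]
      refine Or.inl (mem_sdiff.2 ⟨?_, fun h => ?_⟩)
      · rw [hJ, mem_iv]
        exact ⟨h6.1, by linarith [h6.2.1], h6.2.2⟩
      · have := (hUpos a h).1
        linarith [h6.2.1]
    have h7 := card_le_card h5
    have h8 := h4.2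
    have h9 : ((iv (u ∅) (u ∅ + 16 * |B|)).card : ℤ) = |B| := by linarith
    calc B ≤ |B| := le_abs_self B
      _ = ((iv (u ∅) (u ∅ + 16 * |B|)).card : ℤ) := h9.symm
      _ ≤ (R.card : ℤ) := by exact_mod_cast h7
  · rw [hR, mem_union]
    refine Or.inl (mem_sdiff.2 ⟨?_, fun h => ?_⟩)
    · rw [hJ, mem_iv]
      refine ⟨by linarith, by linarith, by omega⟩
    · have := (hUpos _ h).2
      linarith
  · intro i hi
    set x : ℤ := xx i with hxd
    have hxm := xx_mod i
    rw [← hxd] at hxm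
    -- the identity between the products
    have hid : ∀ y : ℤ, PR R y * ∏ e ∈ EE, PR (I e) y = PR J y * ∏ e ∈ EO, PR (I e) y := by
      intro y
      have h1 : PR R y = PR (J \ U) y * PR V y := PR_union hJV y
      have h2 : PR J y = PR (J \ U) y * PR U y := by
        unfold PR
        rw [prod_sdiff hUJ]
      have h3 : PR U y = ∏ e ∈ EE, PR (I e) y := PR_biUnion hdisE y
      have h4 : PR V y = ∏ e ∈ EO, PR (I e) y := PR_biUnion hdisO y
      rw [h1, h2, h3, h4]
      ring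
    have hr := hid x
    have hr' := hid (x - 16)
    have hpE : (∏ e ∈ EE, PR (I e) x) * (∏ e ∈ EE, (x - u e)) =
        (∏ e ∈ EE, (x - u (insert 0 e))) * ∏ e ∈ EE, PR (I e) (x - 16) := by
      rw [← prod_mul_distrib, ← prod_mul_distrib]
      exact prod_congr rfl fun e he =>
        (hTEL e (hEEm e he).1.1 (hEEm e he).1.2 (hEEm e he).2.1).1 x
    have hpO : (∏ e ∈ EO, PR (I e) x) * (∏ e ∈ EO, (x - u e)) =
        (∏ e ∈ EO, (x - u (insert 0 e))) * ∏ e ∈ EO, PR (I e) (x - 16) := by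
      rw [← prod_mul_distrib, ← prod_mul_distrib]
      exact prod_congr rfl fun e he =>
        (hTEL e (hEOm e he).1.1 (hEOm e he).1.2 (hEOm e he).2.1).1 x
    have hPJ : PR J x * (x - T) = (x - u ∅) * PR J (x - 16) := hTELJ.1 x
    have hE1 : ∏ e ∈ Ev D, (x - u e) =
        ((x - u ∅) * ∏ e ∈ EE, (x - u e)) * ∏ e ∈ EO, (x - u (insert 0 e)) := by
      rw [prod_Ev hD1 (fun e => x - u e), ← mul_prod_erase (QE D) (fun e => x - u e) hempty]
    have hO1 : ∏ e ∈ Od D, (x - u e) =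
        (∏ e ∈ EO, (x - u e)) * ((x - T) * ∏ e ∈ EE, (x - u (insert 0 e))) := by
      rw [prod_Od hD1 (fun e => x - u e),
        ← mul_prod_erase (QE D) (fun e => x - u (insert 0 e)) hempty]
      have h12 : insert 0 (∅ : Finset ℕ) = {0} := rfl
      rw [h12, ho1]
    have hxI : ∀ y : ℤ, (y % 16 = 0 ∨ y % 16 = 2) → ∀ e ∈ EE, PR (I e) y ≠ 0 := by
      intro y hy e he
      refine PR_ne fun h => ?_
      have := hmodE e he y h
      omega
    have h1 : (∏ e ∈ EE, PR (I e) x) ≠ 0 := prod_ne_zero_iff.2 (hxI x hxm)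
    have h2 : (∏ e ∈ EE, PR (I e) (x - 16)) ≠ 0 := prod_ne_zero_iff.2 (hxI (x - 16) (by omega))
    have h3 : PR R x * ∏ e ∈ Od D, (x - u e) = PR R (x - 16) * ∏ e ∈ Ev D, (x - u e) := by
      rw [hE1, hO1]
      apply mul_right_cancel₀ (mul_ne_zero h1 h2)
      generalize (∏ e ∈ EE, PR (I e) x) = pE at *
      generalize (∏ e ∈ EE, PR (I e) (x - 16)) = pE' at *
      generalize (∏ e ∈ EO, PR (I e) x) = pO at *
      generalize (∏ e ∈ EO, PR (I e) (x - 16)) = pO' at *
      generalize (∏ e ∈ EE, (x - u e)) = aE at *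
      generalize (∏ e ∈ EO, (x - u e)) = aO at *
      generalize (∏ e ∈ EE, (x - u (insert 0 e))) = bE at *
      generalize (∏ e ∈ EO, (x - u (insert 0 e))) = bO at *
      calc PR R x * (aO * ((x - T) * bE)) * (pE * pE')
          = (PR R x * pE) * (x - T) * (aO * (bE * pE')) := by ring
        _ = (PR J x * pO) * (x - T) * (aO * (pE * aE)) := by rw [hr, hpE]
        _ = (PR J x * (x - T)) * (pO * aO) * (pE * aE) := by ring
        _ = ((x - u ∅) * PR J (x - 16)) * (bO * pO') * (pE * aE) := by rw [hPJ, hpO]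
        _ = (x - u ∅) * (PR J (x - 16) * pO') * bO * (pE * aE) := by ring
        _ = (x - u ∅) * (PR R (x - 16) * pE') * bO * (pE * aE) := by rw [← hr']
        _ = PR R (x - 16) * ((x - u ∅) * aE * bO) * (pE * pE') := by ring
    have h4 := hm s D T u hu i hi
    rw [← hxd, ← hCn, ← hCd] at h4
    have h5 : (∏ e ∈ Od D, (x - u e)) ≠ 0 := by
      rw [prod_ne_zero_iff]
      intro e he h0
      unfold Od at he
      rw [mem_filter, mem_powerset] at he
      have h6 : u e % 16 = 3 ∨ u e % 16 = 11 := by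
        by_cases h0e : 0 ∈ e
        · have h7 := ho6 (e.erase 0) ((erase_subset _ _).trans he.1) (notMem_erase _ _)
          rw [insert_erase h0e] at h7
          obtain ⟨h8, h9, -⟩ := h7
          split_ifs at h8 <;> omega
        · have h7 := (ho6 e he.1 h0e).1
          split_ifs at h7 <;> omega
      omega
    have h6 : PR R x * Cd = PR R (x - 16) * Cn := by
      apply mul_right_cancel₀ h5
      calc PR R x * Cd * ∏ e ∈ Od D, (x - u e)
          = (PR R x * ∏ e ∈ Od D, (x - u e)) * Cd := by ring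
        _ = PR R (x - 16) * ((∏ e ∈ Ev D, (x - u e)) * Cd) := by rw [h3]; ring
        _ = PR R (x - 16) * ((∏ e ∈ Od D, (x - u e)) * Cn) := by rw [h4]
        _ = PR R (x - 16) * Cn * ∏ e ∈ Od D, (x - u e) := by ring
    have h7 : (Cd : ℚ) ≠ 0 := by exact_mod_cast hCd0
    rw [div_mul_eq_mul_div, eq_div_iff h7]
    have h8 : (PR R x : ℚ) * Cd = PR R (x - 16) * Cn := by exact_mod_cast h6
    rw [h8]
    ring

end Pool.Agent.NH9.PX
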