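import Pool.Agent.NH9.PX.Stm

/-!
# Project PX (helper9), part TEL: telescoping products
-/

set_option autoImplicit false

namespace Pool.Agent.NH9.PX

open Finset

namespace TEL

theorem iv_eq (lo : ℤ) (n : ℕ) :
    iv lo (lo + 16 * n) = (range n).image (fun j : ℕ => lo + 16 * (j : ℤ)) := by
  ext a
  simp only [iv, mem_filter, mem_Ico, mem_image, mem_range]
  constructor
  · rintro ⟨⟨h1, h2⟩, h3⟩
    refine ⟨((a - lo) / 16).toNat, ?_, ?_⟩ <;> omega
  · rintro ⟨j, hj, rfl⟩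
    refine ⟨⟨?_, ?_⟩, ?_⟩ <;> omega

theorem inj (lo : ℤ) : Function.Injective (fun j : ℕ => lo + 16 * (j : ℤ)) := by
  intro i j h
  have h' : lo + 16 * (i : ℤ) = lo + 16 * (j : ℤ) := h
  omega

theorem PR_iv (lo : ℤ) (n : ℕ) (x : ℤ) :
    PR (iv lo (lo + 16 * n)) x = ∏ j ∈ range n, (x - (lo + 16 * (j : ℤ))) := by
  rw [PR, iv_eq, prod_image fun i _ j _ h => inj lo h]

theorem key (lo x : ℤ) (n : ℕ) :
    (∏ j ∈ range n, (x - (lo + 16 * (j : ℤ)))) * (x - (lo + 16 * n)) =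
      (x - lo) * ∏ j ∈ range n, (x - 16 - (lo + 16 * (j : ℤ))) := by
  induction n with
  | zero => simp
  | succ n ih =>
    rw [prod_range_succ, prod_range_succ, ih]
    push_cast
    ring

end TEL

open TEL in
theorem t_TEL : S_TEL := by
  intro lo hi h1 h2
  obtain ⟨n, rfl⟩ : ∃ n : ℕ, hi = lo + 16 * n := ⟨((hi - lo) / 16).toNat, by omega⟩
  refine ⟨fun x => ?_, ?_⟩
  · rw [PR_iv, PR_iv, key]
  · rw [iv_eq, card_image_of_injective _ (inj lo), card_range]
    ring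

end Pool.Agent.NH9.PX
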