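import Pool.Agent.NH9.PX.Stm

/-! # Existence of `T` -/

set_option autoImplicit false

namespace Pool.Agent.NH9.PX

open Finset

namespace TEX

theorem gcd_odd {x : ℤ} (hx : x % 2 = 1) : Int.gcd 16 x = 1 := by
  have h1 : Odd x.natAbs := Int.natAbs_odd.2 (Int.odd_iff.2 hx)
  have h2 : Nat.Coprime (2 ^ 4) x.natAbs := Nat.Coprime.pow_left 4 (Nat.coprime_two_left.2 h1)
  exact h2

end TEX

/-- existence of `T` -/
theorem t_TEX (hc : S_CRT) (hm : S_CMP) (hg : S_GAP) : S_TEX := by
  intro s hs D B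
  have hodd : ∀ e, xi s e % 2 = 1 := (hg s hs).1
  have h0 : ∀ e, xi s e ≠ 0 := fun e h => by
    have := hodd e
    rw [h] at this
    simp at this
  obtain ⟨T0, hT0⟩ := hc (Option (Finset ℕ)) (insertNone (range D).powerset)
    (fun o => o.elim 16 (xi s)) (fun o => o.elim 3 (fun e => - eta s e)) (by
      rintro (_ | e) _
      · exact (by norm_num : (16 : ℤ) ≠ 0)
      · exact h0 e) (by
      rintro (_ | e) _ (_ | f) _
      · exact (sub_self (3 : ℤ)).symm ▸ dvd_zero _
      · change ((Int.gcd 16 (xi s f) : ℕ) : ℤ) ∣ _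
        rw [TEX.gcd_odd (hodd f)]
        exact one_dvd _
      · change ((Int.gcd (xi s e) 16 : ℕ) : ℤ) ∣ _
        rw [Int.gcd_comm, TEX.gcd_odd (hodd e)]
        exact one_dvd _
      · change ((Int.gcd (xi s e) (xi s f) : ℕ) : ℤ) ∣ - eta s e - (- eta s f)
        have h := (hm s hs e f).neg_right
        rwa [show -(eta s e - eta s f) = - eta s e - (- eta s f) by ring] at h)
  have h16 : (16 : ℤ) ∣ T0 - 3 := hT0 none (by simp)
  have hxi : ∀ e ⊆ range D, xi s e ∣ T0 + eta s e := by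
    intro e he
    have h := hT0 (some e) (by simpa using he)
    have h' : xi s e ∣ T0 - (- eta s e) := h
    rwa [sub_neg_eq_add] at h'
  set M : ℤ := 16 * ∏ e ∈ (range D).powerset, |xi s e| with hM
  have hM1 : 1 ≤ M := by
    have h1 : 0 < ∏ e ∈ (range D).powerset, |xi s e| :=
      Finset.prod_pos fun e _ => abs_pos.2 (h0 e)
    omega
  have hMx : ∀ e ⊆ range D, xi s e ∣ M := by
    intro e he
    have h1 : |xi s e| ∣ ∏ e ∈ (range D).powerset, |xi s e| :=
      Finset.dvd_prod_of_mem _ (Finset.mem_powerset.2 he)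
    exact ((dvd_abs _ _).2 dvd_rfl).trans (h1.trans (dvd_mul_left _ _))
  have hM16 : (16 : ℤ) ∣ M := dvd_mul_right _ _
  set t : ℤ := max 0 (B - T0) with ht
  have ht0 : 0 ≤ t := le_max_left _ _
  have ht1 : B - T0 ≤ t := le_max_right _ _
  refine ⟨T0 + t * M, fun e => (T0 + t * M + eta s e) / xi s e, ?_, ?_, fun e he => ?_⟩
  · nlinarith
  · obtain ⟨a, ha⟩ := h16
    obtain ⟨b, hb⟩ := hM16
    have h1 : T0 + t * M = 3 + 16 * (a + t * b) := by
      rw [hb]
      linear_combination ha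
    rw [h1]
    omega
  · refine Int.ediv_mul_cancel ?_
    have h1 := dvd_add (hxi e he) ((hMx e he).mul_left t)
    rwa [show T0 + eta s e + t * M = T0 + t * M + eta s e by ring] at h1

end Pool.Agent.NH9.PX
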