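import Pool.Agent.NH9.PX.Stm

/-!
# The identity of tomography
-/

set_option autoImplicit false

namespace Pool.Agent.NH9.PX

open Finset Polynomial

namespace TOM

/-- add or remove the element `i` -/
def tog (i : ℕ) (e : Finset ℕ) : Finset ℕ := if i ∈ e then e.erase i else insert i e

theorem tog_tog (i : ℕ) (e : Finset ℕ) : tog i (tog i e) = e := by
  unfold tog
  by_cases h : i ∈ e
  · rw [if_pos h, if_neg (notMem_erase i e), insert_erase h]
  · rw [if_neg h, if_pos (mem_insert_self i e), erase_insert h]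

theorem tog_card (i : ℕ) (e : Finset ℕ) :
    (e.card % 2 = 0 → (tog i e).card % 2 = 1) ∧ (e.card % 2 = 1 → (tog i e).card % 2 = 0) := by
  unfold tog
  by_cases h : i ∈ e
  · rw [if_pos h]
    have h1 := card_erase_add_one h
    omega
  · rw [if_neg h, card_insert_of_notMem h]
    omega

theorem tog_sub {D i : ℕ} (hi : i < D) {e : Finset ℕ} (he : e ⊆ range D) : tog i e ⊆ range D := by
  unfold tog
  split_ifs with h
  · exact (erase_subset _ _).trans he
  · exact insert_subset (mem_range.mpr hi) he

/-- the signed projection -/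
def g (s : ℕ → ℕ) (T : ℤ) (i : ℕ) (e : Finset ℕ) : ℤ := xx i * xi s e - (T + eta s e)

theorem g_insert (s : ℕ → ℕ) (T : ℤ) (i : ℕ) (e : Finset ℕ) (h : i ∉ e) :
    g s T i (insert i e) = g s T i e := by
  unfold g xi eta
  rw [sum_insert h, sum_insert h]
  ring

theorem g_tog (s : ℕ → ℕ) (T : ℤ) (i : ℕ) (e : Finset ℕ) : g s T i (tog i e) = g s T i e := by
  unfold tog
  by_cases h : i ∈ e
  · rw [if_pos h]
    have h1 := g_insert s T i (e.erase i) (notMem_erase i e)
    rw [insert_erase h] at h1
    exact h1.symm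
  · rw [if_neg h]
    exact g_insert s T i e h

end TOM

open TOM in
theorem t_TOM : S_TOM := by
  intro s D T u hu i hi
  rw [← prod_mul_distrib, ← prod_mul_distrib]
  have h1 : ∀ e ⊆ range D, (xx i - u e) * xi s e = g s T i e := by
    intro e he
    rw [sub_mul, hu e he]
    rfl
  refine prod_bij' (fun e _ => tog i e) (fun e _ => tog i e) (fun e he => ?_) (fun e he => ?_)
    (fun e _ => tog_tog i e) (fun e _ => tog_tog i e) (fun e he => ?_)
  · unfold Ev at he
    unfold Od
    rw [mem_filter, mem_powerset] at he ⊢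
    exact ⟨tog_sub hi he.1, (tog_card i e).1 he.2⟩
  · unfold Od at he
    unfold Ev
    rw [mem_filter, mem_powerset] at he ⊢
    exact ⟨tog_sub hi he.1, (tog_card i e).2 he.2⟩
  · unfold Ev at he
    rw [mem_filter, mem_powerset] at he
    rw [h1 e he.1, h1 _ (tog_sub hi he.1), g_tog]

end Pool.Agent.NH9.PX
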