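import Pool.Agent.NH9.PX.CRT
import Pool.Agent.NH9.PX.DAT
import Pool.Agent.NH9.PX.DER
import Pool.Agent.NH9.PX.GAP
import Pool.Agent.NH9.PX.REF
import Pool.Agent.NH9.PX.SEQ
import Pool.Agent.NH9.PX.TEL
import Pool.Agent.NH9.PX.TEX
import Pool.Agent.NH9.PX.ORD
import Pool.Agent.NH9.PX.CMP
import Pool.Agent.NH9.PX.TOM
import Pool.Agent.NH9.PX.SET

/-!
# Split integer polynomials with the same positive value at arbitrarily many integers
-/

set_option autoImplicit false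

namespace Pool.Agent.NH9.PX

theorem t_DATA : S_DAT :=
  t_DAT t_SEQ (t_SET (t_TEX t_CRT (t_CMP t_GAP) t_GAP) t_TOM t_TEL (t_ORD t_GAP) t_GAP) t_REF t_DER

end Pool.Agent.NH9.PX
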