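import Pool.Agent.NH9.PX.Stm

/-! # Project PX (helper9), PX-CRT: the Chinese remainder theorem for moduli which need not be
coprime (helper30) -/

set_option autoImplicit false

namespace Pool.Agent.NH9.PX

namespace CRT

theorem bez {a b z : ℤ} (h : ((Int.gcd a b : ℕ) : ℤ) ∣ z) : ∃ x y : ℤ, z = a * x + b * y := by
  obtain ⟨k, hk⟩ := h
  refine ⟨Int.gcdA a b * k, Int.gcdB a b * k, ?_⟩
  rw [hk, Int.gcd_eq_gcd_ab]
  ring

theorem main (ι : Type) (m r : ι → ℤ) (S : Finset ι) : (∀ i ∈ S, m i ≠ 0) →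
    (∀ i ∈ S, ∀ j ∈ S, ((Int.gcd (m i) (m j) : ℕ) : ℤ) ∣ r i - r j) →
    ∃ T L : ℤ, (∀ i ∈ S, m i ∣ L) ∧ (∀ i ∈ S, m i ∣ T - r i) ∧
      ∀ c z : ℤ, (∀ i ∈ S, ∃ x y : ℤ, z = m i * x + c * y) → ∃ x y : ℤ, z = L * x + c * y := by
  classical
  induction S using Finset.induction_on with
  | empty =>
    intro _ _
    exact ⟨0, 1, by simp, by simp, fun c z _ => ⟨z, 0, by ring⟩⟩
  | insert j S hj ih =>
    intro h0 h
    obtain ⟨T, L, hL, hT, hc⟩ := ih (fun i hi => h0 i (Finset.mem_insert_of_mem hi))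
      (fun i hi k hk => h i (Finset.mem_insert_of_mem hi) k (Finset.mem_insert_of_mem hk))
    have hj0 : m j ≠ 0 := h0 j (Finset.mem_insert_self j S)
    obtain ⟨x, y, hxy⟩ := hc (m j) (T - r j) (fun i hi => by
      obtain ⟨x, y, hxy⟩ := bez (h i (Finset.mem_insert_of_mem hi) j (Finset.mem_insert_self j S))
      obtain ⟨k, hk⟩ := hT i hi
      refine ⟨k + x, y, ?_⟩
      linear_combination hk + hxy)
    have hd0 : ((Int.gcd L (m j) : ℕ) : ℤ) ≠ 0 := by
      rw [Ne, Nat.cast_eq_zero, Int.gcd_eq_zero_iff]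
      exact fun h => hj0 h.2
    obtain ⟨a, ha⟩ := Int.gcd_dvd_left L (m j)
    obtain ⟨b, hb⟩ := Int.gcd_dvd_right L (m j)
    have hab := Int.gcd_eq_gcd_ab L (m j)
    generalize ((Int.gcd L (m j) : ℕ) : ℤ) = d at ha hb hab hd0
    generalize Int.gcdA L (m j) = A at hab
    generalize Int.gcdB L (m j) = B at hab
    have h1 : a * A + b * B = 1 := by
      apply mul_left_cancel₀ hd0
      rw [ha, hb] at hab
      linear_combination -hab
    refine ⟨T - L * x, L * b, fun i hi => ?_, fun i hi => ?_, fun c z hz => ?_⟩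
    · rcases Finset.mem_insert.1 hi with rfl | hi
      · refine ⟨a, ?_⟩
        rw [ha, hb]
        ring
      · exact (hL i hi).mul_right b
    · rcases Finset.mem_insert.1 hi with rfl | hi
      · refine ⟨y, ?_⟩
        linear_combination hxy
      · have e : T - L * x - r i = (T - r i) - L * x := by ring
        rw [e]
        exact dvd_sub (hT i hi) ((hL i hi).mul_right x)
    · obtain ⟨x1, y1, e1⟩ := hc c z (fun i hi => hz i (Finset.mem_insert_of_mem hi))
      obtain ⟨x2, y2, e2⟩ := hz j (Finset.mem_insert_self j S)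
      refine ⟨A * x2 + B * x1, A * a * y2 + B * b * y1, ?_⟩
      have e3 : L * b = m j * a := by
        rw [ha, hb]
        ring
      linear_combination (-z) * h1 + (a * A) * e2 + (b * B) * e1 - (A * x2) * e3
end CRT

theorem t_CRT : S_CRT := by
  intro ι S m r h0 h
  obtain ⟨T, -, -, hT, -⟩ := CRT.main ι m r S h0 h
  exact ⟨T, hT⟩

end Pool.Agent.NH9.PX
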