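import Mathlib
import Pool.Agent.W289.CG.Stm

/-!
# Project PX (helper9), MP_176ace_nt: split integer polynomials with arbitrarily many equal values

For every `k` there are distinct integers `a 1, ..., a n` such that `∏ (X - a i)` takes the same positive
value at `k` integers.  Idea: (1) the points `(ξ, η) = (-15 + ∑ s i, ∑ x i * s i)`, over the subsets `e`
of `range D`, with the sign `(-1) ^ |e|`, have all their signed projections `x i * ξ - η` equal to `0`;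
(2) so with `u e = (T + η e) / ξ e` the quotient of the products of the `x i - u e` over the even and
over the odd `e` is a constant `C` independent of `i`; (3) the intervals with step `16` between the
`u e` are telescoping, so their union `R` satisfies `PR R (x i) = C * PR R (x i - 16)`; (4) the reflection
of `R` gives the factor `C⁻¹`.
-/

set_option autoImplicit false

namespace Pool.Agent.NH9.PX

open Finset Polynomial

/-- the directions: `0, 2, 16, 18, 32, 34, ...` -/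
def xx (i : ℕ) : ℤ := 16 * ((i / 2 : ℕ) : ℤ) + 2 * ((i % 2 : ℕ) : ℤ)

/-- the points at which the values will be equal -/
def bb (i : ℕ) : ℤ := xx i - 16

/-- the conditions on the sequence `s` -/
structure Sq (s : ℕ → ℕ) : Prop where
  h0 : s 0 = 16
  h8 : ∀ i, 1 ≤ i → s i % 16 = 8
  hd : ∀ i, 1 ≤ i → ∀ d : ℕ, d % 2 = 1 → d ≤ 15 + ∑ j ∈ range i, s j → d ∣ s i
  hg : ∀ i, 1 ≤ i → 8 * (15 + ∑ j ∈ range i, s j) ≤ s i

/-- `ξ` -/
def xi (s : ℕ → ℕ) (e : Finset ℕ) : ℤ := -15 + ∑ i ∈ e, (s i : ℤ)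

/-- `η` -/
def eta (s : ℕ → ℕ) (e : Finset ℕ) : ℤ := ∑ i ∈ e, xx i * (s i : ℤ)

/-- `u e` is the quotient of `T + η e` by `ξ e` -/
def UU (s : ℕ → ℕ) (D : ℕ) (T : ℤ) (u : Finset ℕ → ℤ) : Prop :=
  ∀ e ⊆ range D, u e * xi s e = T + eta s e

/-- the even subsets of `range D` -/
def Ev (D : ℕ) : Finset (Finset ℕ) := (range D).powerset.filter fun e => e.card % 2 = 0

/-- the odd subsets of `range D` -/
def Od (D : ℕ) : Finset (Finset ℕ) := (range D).powerset.filter fun e => e.card % 2 = 1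

/-- the value at `x` of the polynomial with the set `S` of roots -/
def PR (S : Finset ℤ) (x : ℤ) : ℤ := ∏ a ∈ S, (x - a)

/-- the interval with step `16` -/
noncomputable def iv (lo hi : ℤ) : Finset ℤ := (Ico lo hi).filter fun a => (a - lo) % 16 = 0

/-- PX-SEQ: the sequence -/
def S_SEQ : Prop := ∃ s, Sq s

/-- PX-CRT: the Chinese remainder theorem for moduli which need not be coprime -/
def S_CRT : Prop := ∀ (ι : Type) (S : Finset ι) (m r : ι → ℤ), (∀ i ∈ S, m i ≠ 0) →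
  (∀ i ∈ S, ∀ j ∈ S, ((Int.gcd (m i) (m j) : ℕ) : ℤ) ∣ r i - r j) → ∃ T : ℤ, ∀ i ∈ S, m i ∣ T - r i

/-- PX-GAP: the order of the numbers `ξ` -/
def S_GAP : Prop := ∀ s, Sq s →
  (∀ e, xi s e % 2 = 1) ∧
  (∀ e f, 0 ∉ e → 0 ∉ f → e ≠ f → xi s e + 17 ≤ xi s f ∨ xi s f + 17 ≤ xi s e) ∧
  (∀ e, 0 ∉ e → e ≠ ∅ → 100 ≤ xi s e) ∧
  (∀ e, 0 ∉ e → xi s (insert 0 e) = xi s e + 16 ∧ eta s (insert 0 e) = eta s e) ∧
  (∀ e, 0 ∉ e → xi s e % 16 = if e.card % 2 = 0 then 1 else 9) ∧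
  (∀ e f, xi s e = xi s f → e = f)

/-- PX-CMP: compatibility of the congruences -/
def S_CMP : Prop := ∀ s, Sq s → ∀ e f : Finset ℕ,
  ((Int.gcd (xi s e) (xi s f) : ℕ) : ℤ) ∣ eta s e - eta s f

/-- PX-TEX: existence of `T` -/
def S_TEX : Prop := ∀ s, Sq s → ∀ (D : ℕ) (B : ℤ), ∃ (T : ℤ) (u : Finset ℕ → ℤ),
  B ≤ T ∧ T % 16 = 3 ∧ UU s D T u

/-- PX-TOM: the identity of tomography -/
def S_TOM : Prop := ∀ (s : ℕ → ℕ) (D : ℕ) (T : ℤ) (u : Finset ℕ → ℤ), UU s D T u → ∀ i < D,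
  (∏ e ∈ Ev D, (xx i - u e)) * ∏ e ∈ Ev D, xi s e = (∏ e ∈ Od D, (xx i - u e)) * ∏ e ∈ Od D, xi s e

/-- PX-TEL: telescoping products over intervals -/
def S_TEL : Prop := ∀ lo hi : ℤ, lo ≤ hi → (hi - lo) % 16 = 0 →
  (∀ x : ℤ, PR (iv lo hi) x * (x - hi) = (x - lo) * PR (iv lo hi) (x - 16)) ∧
  16 * ((iv lo hi).card : ℤ) = hi - lo

/-- PX-ORD: the order of the numbers `u e`, for large `T` -/
def S_ORD : Prop := ∀ s, Sq s → ∀ (D : ℕ) (B : ℤ), 1 ≤ D → ∃ B' : ℤ, ∀ (T : ℤ) (u : Finset ℕ → ℤ),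
  B' ≤ T → T % 16 = 3 → UU s D T u →
  (u {0} = T ∧ u ∅ < 0 ∧ B ≤ T - 16) ∧
  (∀ e ⊆ range D, 0 ∉ e → e ≠ ∅ → 0 < u (insert 0 e) ∧ u (insert 0 e) < u e ∧ u e ≤ T - 16) ∧
  (∀ e ⊆ range D, ∀ f ⊆ range D, 0 ∉ e → 0 ∉ f → e ≠ ∅ → f ≠ ∅ → e ≠ f →
    u f ≤ u (insert 0 e) ∨ u e ≤ u (insert 0 f)) ∧
  (∀ e ⊆ range D, 0 ∉ e →
    u e % 16 = (if e.card % 2 = 0 then 3 else 11) ∧ u (insert 0 e) % 16 = u e % 16 ∧
    (u e - u (insert 0 e)) % 32 = 16)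

/-- PX-SET: the set `R` -/
def S_SET : Prop := ∀ s, Sq s → ∀ (D : ℕ) (B : ℤ), 2 ≤ D → ∃ (R : Finset ℤ) (C : ℚ),
  B ≤ (R.card : ℤ) ∧ R.card % 2 = 0 ∧ (∀ a ∈ R, a % 16 = 3 ∨ a % 16 = 11) ∧ (∃ a ∈ R, B ≤ a) ∧
  ∀ i < D, (PR R (xx i) : ℚ) = C * PR R (xx i - 16)

/-- PX-DER: the derivative -/
def S_DER : Prop := ∀ (A : Finset ℤ) (b : ℤ), A.Nonempty → (∀ a ∈ A, a < b ∨ b + 2 < a) →
  PR A b = PR A (b + 2) →
  (derivative (∏ a ∈ A, (X - C a))).eval b ≠ 0 ∧ (derivative (∏ a ∈ A, (X - C a))).eval (b + 2) ≠ 0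

/-- PX-REF: adding the reflection -/
def S_REF : Prop := ∀ (R : Finset ℤ) (C : ℚ) (D : ℕ), D % 4 = 0 → 4 ≤ D → R.card % 2 = 0 →
  (∀ a ∈ R, a % 16 = 3 ∨ a % 16 = 11) → (∀ i < D, (PR R (xx i) : ℚ) = C * PR R (xx i - 16)) →
  ∃ (A : Finset ℤ) (c : ℤ), R ⊆ A ∧ A.card = 2 * R.card ∧ 0 < c ∧ (∀ i < D + 2, PR A (bb i) = c) ∧
    ∀ a ∈ A, a % 16 ≠ 0 ∧ a % 16 ≠ 1 ∧ a % 16 ≠ 2

/-- PX-DAT: the data for the theorem on class groups -/
def S_DAT : Prop := ∀ k N : ℕ, ∃ n : ℕ, N ≤ n ∧ Nonempty (Pool.Agent.W289.CG.Dat n k)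

end Pool.Agent.NH9.PX
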